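import Pool.Agent.Helper75.SR.Goals1

/-!
# Packet SR-GTrace: the trace identity on horizontal vectors
-/

namespace Pool.Agent.Helper72.SR

open Pool.Agent.Helper75.SR

set_option synthInstance.maxSize 1000

theorem gTrace (hA : GAlg) (hC : GCurv) : GTrace := by
  intro E _ _ U S x hx X hX
  -- scalar curvature forms
  obtain ⟨r, hr⟩ : ∃ r : E → E → E → E → ℝ, ∀ u v w z, r u v w z = S.g x (S.R x u v w) z :=
    ⟨_, fun _ _ _ _ => rfl⟩
  obtain ⟨g, hg⟩ : ∃ g : E → E → ℝ, ∀ u v, g u v = S.g x u v := ⟨_, fun _ _ => rfl⟩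
  obtain ⟨φ, hφ⟩ : ∃ φ : Fin 3 → E → E, ∀ a v, φ a v = S.phi a x v := ⟨_, fun _ _ => rfl⟩
  obtain ⟨ξ, hξ⟩ : ∃ ξ : Fin 3 → E, ∀ a, ξ a = S.xi a x := ⟨_, fun _ => rfl⟩
  have gsymm : ∀ v w, g v w = g w v := fun v w => by rw [hg, hg]; exact S.g_symm x hx v w
  have gskew : ∀ a v w, g (φ a v) w = - g v (φ a w) := fun a v w => by
    rw [hg, hg, hφ, hφ]; exact S.killing x hx a v w
  have gneg : ∀ v w, g v (-w) = - g v w := fun v w => by rw [hg, hg, map_neg]
  have gnegl : ∀ v w, g (-v) w = - g v w := fun v w => by rw [gsymm, gneg, gsymm]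
  have gadd : ∀ v w z, g v (w + z) = g v w + g v z := fun v w z => by
    rw [hg, hg, hg, map_add]
  have gsmul : ∀ v (c : ℝ) w, g v (c • w) = c * g v w := fun v c w => by
    rw [hg, hg, map_smul, smul_eq_mul]
  have gzero : ∀ v, g v 0 = 0 := fun v => by rw [hg, map_zero]
  have hηX : ∀ a, g (ξ a) X = 0 := fun a => by rw [hg, hξ]; exact hX a
  -- algebra of the φ's
  have hφ2 : ∀ a v, φ a (φ a v) = -v + g (ξ a) v • ξ a := fun a v => by
    rw [hφ, hφ, hg, hξ]; exact (hA E U S x hx a v).2.2.2.1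
  have hφ01 : ∀ a v, φ a (φ (a + 1) v) = φ (a + 2) v + g (ξ (a + 1)) v • ξ a := fun a v => by
    rw [hφ, hφ, hφ, hg, hξ, hξ]; exact (hA E U S x hx a v).2.2.2.2.1
  have hφ02 : ∀ a v, φ a (φ (a + 2) v) = - φ (a + 1) v + g (ξ (a + 2)) v • ξ a := fun a v => by
    rw [hφ, hφ, hφ, hg, hξ, hξ]; exact (hA E U S x hx a v).2.2.2.2.2
  have hφξ1 : ∀ a, φ a (ξ (a + 1)) = ξ (a + 2) := fun a => by
    rw [hφ, hξ, hξ]; exact (hA E U S x hx a 0).2.1
  have hφξ2 : ∀ a, φ a (ξ (a + 2)) = - ξ (a + 1) := fun a => by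
    rw [hφ, hξ, hξ]; exact (hA E U S x hx a 0).2.2.1
  -- η_b (φ_a X) = 0
  have hη1 : ∀ a, g (ξ (a + 1)) (φ a X) = 0 := fun a => by
    have h := gskew a (ξ (a + 1)) X
    rw [hφξ1, hηX] at h
    linarith
  have hη2 : ∀ a, g (ξ (a + 2)) (φ a X) = 0 := fun a => by
    have h := gskew a (ξ (a + 2)) X
    rw [hφξ2, gnegl, hηX] at h
    linarith
  -- curvature
  have r1 : ∀ u v w z, r u v w z = - r v u w z := fun u v w z => by
    rw [hr, hr, (hC E U S x hx 0 u v w z).1, ← hg, ← hg, gnegl]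
  have r3 : ∀ u v w z, r u v w z + r v w u z + r w u v z = 0 := fun u v w z => by
    have h := (hC E U S x hx 0 u v w z).2.2.1
    have h2 : g (S.R x u v w + S.R x v w u + S.R x w u v) z = 0 := by
      rw [h, gsymm, gzero]
    rw [gsymm, gadd, gadd, gsymm, gsymm z, gsymm z] at h2
    rw [hr, hr, hr, ← hg, ← hg, ← hg]
    exact h2
  have r4 : ∀ u v w z, r u v w z = r w z u v := fun u v w z => by
    rw [hr, hr]; exact (hC E U S x hx 0 u v w z).2.2.2.1
  have r6 : ∀ a u v w z, r u v (φ a w) z + r u v w (φ a z) =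
      g (φ a u) w * g v z - g v w * g (φ a u) z - g (φ a v) w * g u z + g u w * g (φ a v) z := by
    intro a u v w z
    have h := (hC E U S x hx a u v w z).2.2.2.2.2
    have h2 : S.R x u v (φ a w) = φ a (S.R x u v w) + (g (φ a u) w • v - g v w • φ a u
        - g (φ a v) w • u + g u w • φ a v) := by
      simp only [hφ, hg]
      rw [← h]
      abel
    have h3 : r u v (φ a w) z = g z (S.R x u v (φ a w)) := by rw [hr, ← hg, gsymm]
    have h4 : g z (φ a (S.R x u v w)) = - r u v w (φ a z) := by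
      rw [gsymm, gskew, hr, ← hg]
    rw [h3, h2, gadd, h4, sub_eq_add_neg, sub_eq_add_neg, gadd, gadd, gadd, gneg, gneg, gsmul,
      gsmul, gsmul, gsmul, gsymm z v, gsymm z (φ a u), gsymm z u, gsymm z (φ a v)]
    ring
  have rneg4 : ∀ u v w z, r u v w (-z) = - r u v w z := fun u v w z => by
    rw [hr, hr, ← hg, ← hg, gneg]
  have rneg2 : ∀ u v w z, r u (-v) w z = - r u v w z := fun u v w z => by
    rw [r4, rneg4, r4]
  -- the modified curvature
  obtain ⟨b, hb⟩ : ∃ b : E → E → E → E → ℝ, ∀ u v w z,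
      b u v w z = r u v w z - g v w * g u z + g u w * g v z := ⟨_, fun _ _ _ _ => rfl⟩
  have b1 : ∀ u v w z, b u v w z = - b v u w z := fun u v w z => by
    rw [hb, hb, r1 u v]; ring
  have b3 : ∀ u v w z, b u v w z + b v w u z + b w u v z = 0 := fun u v w z => by
    rw [hb, hb, hb]
    have := r3 u v w z
    rw [gsymm w u, gsymm u v, gsymm w v]
    linarith
  have b4 : ∀ u v w z, b u v w z = b w z u v := fun u v w z => by
    rw [hb, hb, r4 u v w z, gsymm z u, gsymm w v, gsymm w u, gsymm z v]; ring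
  have b6 : ∀ a u v w z, b u v (φ a w) z = - b u v w (φ a z) := by
    intro a u v w z
    rw [hb, hb]
    have := r6 a u v w z
    rw [gskew a u w, gskew a u z, gskew a v w, gskew a v z] at this
    linarith
  have bneg4 : ∀ u v w z, b u v w (-z) = - b u v w z := fun u v w z => by
    rw [hb, hb, rneg4, gneg, gneg]; ring
  have bneg2 : ∀ u v w z, b u (-v) w z = - b u v w z := fun u v w z => by
    rw [b4, bneg4, b4]
  have b7 : ∀ a u v w z, g (ξ a) z = 0 → b u v (φ a w) (φ a z) = b u v w z := by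
    intro a u v w z hz
    rw [b6, hφ2, hz, zero_smul, add_zero, bneg4, neg_neg]
  have b8 : ∀ a u v w z, g (ξ a) v = 0 → b (φ a u) (φ a v) w z = b u v w z := by
    intro a u v w z hv
    rw [b4, b7 a w z u v hv, b4]
  -- quaternionic relations on X
  have e20 : φ 2 X = - φ 1 (φ 0 X) := by
    have h := hφ02 1 X
    rw [hηX, zero_smul, add_zero] at h
    have h' : φ 1 (φ 0 X) = - φ 2 X := h
    rw [h', neg_neg]
  have e12 : φ 1 X = - φ 0 (φ 2 X) := by
    have h := hφ02 0 X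
    rw [hηX, zero_smul, add_zero] at h
    have h' : φ 0 (φ 2 X) = - φ 1 X := h
    rw [h', neg_neg]
  have e01 : φ 2 X = φ 0 (φ 1 X) := by
    have h := hφ01 0 X
    rw [hηX, zero_smul, add_zero] at h
    exact h.symm
  have t1 : b X (φ 0 X) (φ 1 X) (φ 2 X) = b (φ 0 X) X X (φ 0 X) := by
    rw [e20, bneg4, b7 1 X (φ 0 X) X (φ 0 X) (hη1 0), b1, neg_neg]
  have t2 : b (φ 0 X) (φ 1 X) X (φ 2 X) = b (φ 2 X) X X (φ 2 X) := by
    rw [e12, bneg2, b8 0 X (φ 2 X) X (φ 2 X) (hη1 2), b1, neg_neg]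
  have t3 : b (φ 1 X) X (φ 0 X) (φ 2 X) = b (φ 1 X) X X (φ 1 X) := by
    rw [e01, b7 0 (φ 1 X) X X (φ 1 X) (hη2 1)]
  have hB := b3 X (φ 0 X) (φ 1 X) (φ 2 X)
  rw [t1, t2, t3] at hB
  have hv : ∀ a, r (φ a X) X X (φ a X) = b (φ a X) X X (φ a X) + g X X ^ 2 := by
    intro a
    have h1 : g (φ a X) X = 0 := by
      have := gskew a X X
      rw [gsymm X (φ a X)] at this
      linarith
    have h2 : g (φ a X) (φ a X) = g X X := by
      rw [gskew, hφ2, hηX, zero_smul, add_zero, gneg, neg_neg]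
    rw [hb, h1, h2]; ring
  have hfin : ∑ a : Fin 3, r (φ a X) X X (φ a X) = 3 * (g X X) ^ 2 := by
    rw [Fin.sum_univ_three, hv, hv, hv]
    linarith
  simpa only [hr, hφ, hg] using hfin

end Pool.Agent.Helper72.SR
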